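import Mathlib

set_option autoImplicit false

namespace Pool.Agent.Hhelper43.Cube

open Finset

/-- Vertices of the `n`-dimensional hypercube. -/
abbrev V (n : ℕ) : Type := Fin n → Bool

/-- The hypercube graph `Q_n`: two vertices are adjacent when they differ in exactly one
coordinate. -/
def Q (n : ℕ) : SimpleGraph (V n) where
  Adj u v := hammingDist u v = 1
  symm := ⟨fun u v h => by rw [hammingDist_comm]; exact h⟩
  loopless := ⟨fun u h => by simp at h⟩

/-- The antipode of a vertex: it differs in every coordinate. -/
def anti {n : ℕ} (v : V n) : V n := fun i => !v i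

/-- The number of places where two consecutive entries of a list of colours differ. -/
def changes : List Bool → ℕ
  | [] => 0
  | [_] => 0
  | a :: b :: l => (if a = b then 0 else 1) + changes (b :: l)

/-- `m_χ(v)`: the least number of colour changes over all paths from `v` to its antipode. -/
noncomputable def m {n : ℕ} (χ : Sym2 (V n) → Bool) (v : V n) : ℕ :=
  sInf {k : ℕ | ∃ p : (Q n).Walk v (anti v), p.IsPath ∧ changes (p.edges.map χ) = k}

/-- `A(χ)`: the average of `m_χ(v)` over all vertices. -/
noncomputable def A {n : ℕ} (χ : Sym2 (V n) → Bool) : ℝ :=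
  (∑ v : V n, (m χ v : ℝ)) / 2 ^ n

/-- `M(n)`: the maximum of `A(χ)` over all red-blue edge colourings `χ` of `Q_n`. -/
noncomputable def M (n : ℕ) : ℝ := ⨆ χ : Sym2 (V n) → Bool, A χ

end Pool.Agent.Hhelper43.Cube
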