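import Mathlib
import Pool.Agent.Hhelper43.Cube.Defs

set_option autoImplicit false

namespace Pool.Agent.Hhelper43.Cube

open Finset

/-! ### Flipping coordinates -/

/-- Flip one coordinate. -/
def flip {n : ℕ} (w : V n) (d : Fin n) : V n := Function.update w d (!w d)

lemma flip_flip {n : ℕ} (w : V n) (d : Fin n) : flip (flip w d) d = w := by
  unfold flip
  funext i
  by_cases h : i = d
  · subst h; simp
  · simp [Function.update_of_ne h]

lemma flip_apply {n : ℕ} (w : V n) (d i : Fin n) :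
    flip w d i = if i = d then !w i else w i := by
  unfold flip
  by_cases h : i = d
  · subst h; simp
  · simp [h]

lemma adj_flip {n : ℕ} (w : V n) (d : Fin n) : (Q n).Adj w (flip w d) := by
  change hammingDist w (flip w d) = 1
  unfold hammingDist
  rw [Finset.card_eq_one]
  refine ⟨d, ?_⟩
  ext i
  simp only [Finset.mem_filter, Finset.mem_univ, true_and, Finset.mem_singleton, flip_apply]
  by_cases h : i = d
  · simp [h]
  · simp [h]

/-- The colour of the edge at `w` in direction `d`. -/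
def ecol {n : ℕ} (χ : Sym2 (V n) → Bool) (w : V n) (d : Fin n) : Bool := χ s(w, flip w d)

lemma ecol_flip {n : ℕ} (χ : Sym2 (V n) → Bool) (w : V n) (d : Fin n) :
    ecol χ (flip w d) d = ecol χ w d := by
  unfold ecol
  rw [flip_flip, Sym2.eq_swap]

/-- The colours met when the directions in the list are followed from `w`. -/
def cols {n : ℕ} (χ : Sym2 (V n) → Bool) : V n → List (Fin n) → List Bool
  | _, [] => []
  | w, d :: l => ecol χ w d :: cols χ (flip w d) l

/-- The vertex reached when the directions in the list are followed from `w`. -/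
def endp {n : ℕ} : V n → List (Fin n) → V n
  | w, [] => w
  | w, d :: l => endp (flip w d) l

lemma endp_apply {n : ℕ} (l : List (Fin n)) (hl : l.Nodup) (w : V n) (i : Fin n) :
    endp w l i = if i ∈ l then !w i else w i := by
  induction l generalizing w with
  | nil => simp [endp]
  | cons d l ih =>
    rw [List.nodup_cons] at hl
    rw [endp, ih hl.2, flip_apply]
    by_cases h : i = d
    · subst h; simp [hl.1]
    · simp [h]

lemma endp_univ {n : ℕ} (l : List (Fin n)) (hl : l.Nodup) (hu : l.toFinset = Finset.univ)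
    (w : V n) : endp w l = anti w := by
  funext i
  rw [endp_apply l hl]
  have : i ∈ l := by
    rw [← List.mem_toFinset, hu]; exact Finset.mem_univ i
  simp [this, anti]

lemma exists_walk {n : ℕ} (χ : Sym2 (V n) → Bool) (l : List (Fin n)) (hl : l.Nodup) (w z : V n)
    (hz : z = endp w l) :
    ∃ p : (Q n).Walk w z, p.IsPath ∧ p.edges.map χ = cols χ w l ∧
      ∀ u ∈ p.support, ∀ i, i ∉ l → u i = w i := by
  induction l generalizing w with
  | nil =>
    have hz' : z = w := hz
    subst hz'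
    refine ⟨SimpleGraph.Walk.nil, SimpleGraph.Walk.IsPath.nil, ?_, ?_⟩
    · simp [cols]
    · intro u hu i _
      simp only [SimpleGraph.Walk.support_nil, List.mem_singleton] at hu
      rw [hu]
  | cons d l ih =>
    rw [List.nodup_cons] at hl
    obtain ⟨p, hp, hc, hs⟩ := ih hl.2 (flip w d) hz
    refine ⟨SimpleGraph.Walk.cons (adj_flip w d) p, ?_, ?_, ?_⟩
    · rw [SimpleGraph.Walk.cons_isPath_iff]
      refine ⟨hp, fun hmem => ?_⟩
      have := hs w hmem d hl.1
      rw [flip_apply] at this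
      simp at this
    · rw [SimpleGraph.Walk.edges_cons, List.map_cons, hc]
      rfl
    · intro u hu i hi
      rw [SimpleGraph.Walk.support_cons, List.mem_cons] at hu
      rcases hu with rfl | hu
      · rfl
      · rw [List.mem_cons, not_or] at hi
        rw [hs u hu i hi.2, flip_apply]
        simp [hi.1]

/-- The least number of colour changes when the directions of `D` are used once each, starting
from `w`, the previous edge having colour `c`. -/
noncomputable def F {n : ℕ} (χ : Sym2 (V n) → Bool) (w : V n) (D : Finset (Fin n)) (c : Bool) :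
    ℕ :=
  sInf {k : ℕ | ∃ l : List (Fin n), l.Nodup ∧ l.toFinset = D ∧ changes (c :: cols χ w l) = k}

lemma F_spec {n : ℕ} (χ : Sym2 (V n) → Bool) (w : V n) (D : Finset (Fin n)) (c : Bool) :
    ∃ l : List (Fin n), l.Nodup ∧ l.toFinset = D ∧ changes (c :: cols χ w l) = F χ w D c := by
  have hne : {k : ℕ | ∃ l : List (Fin n), l.Nodup ∧ l.toFinset = D ∧
      changes (c :: cols χ w l) = k}.Nonempty :=
    ⟨_, D.toList, D.nodup_toList, D.toList_toFinset, rfl⟩
  exact Nat.sInf_mem hne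

lemma F_le {n : ℕ} (χ : Sym2 (V n) → Bool) (w : V n) (D : Finset (Fin n)) (c : Bool)
    (l : List (Fin n)) (h1 : l.Nodup) (h2 : l.toFinset = D) :
    F χ w D c ≤ changes (c :: cols χ w l) :=
  Nat.sInf_le ⟨l, h1, h2, rfl⟩

lemma F_empty {n : ℕ} (χ : Sym2 (V n) → Bool) (w : V n) (c : Bool) : F χ w ∅ c = 0 := by
  have := F_le χ w ∅ c [] (by simp) (by simp)
  simpa [changes, cols] using this

lemma F_step {n : ℕ} (χ : Sym2 (V n) → Bool) (w : V n) (D : Finset (Fin n)) (c : Bool)
    (d : Fin n) (hd : d ∈ D) :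
    F χ w D c ≤ (if c = ecol χ w d then 0 else 1)
      + F χ (flip w d) (D.erase d) (ecol χ w d) := by
  obtain ⟨l, h1, h2, h3⟩ := F_spec χ (flip w d) (D.erase d) (ecol χ w d)
  have hdl : d ∉ l := by
    rw [← List.mem_toFinset, h2]; simp
  have := F_le χ w D c (d :: l) (List.nodup_cons.mpr ⟨hdl, h1⟩) (by
    rw [List.toFinset_cons, h2, Finset.insert_erase hd])
  rw [cols, changes, h3] at this
  exact this

lemma m_le {n : ℕ} (χ : Sym2 (V n) → Bool) (v : V n) (d : Fin n) :
    m χ v ≤ F χ (flip v d) (Finset.univ.erase d) (ecol χ v d) := by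
  obtain ⟨l, h1, h2, h3⟩ := F_spec χ (flip v d) (Finset.univ.erase d) (ecol χ v d)
  have hdl : d ∉ l := by
    rw [← List.mem_toFinset, h2]; simp
  have hnd : (d :: l).Nodup := List.nodup_cons.mpr ⟨hdl, h1⟩
  have hun : (d :: l).toFinset = Finset.univ := by
    rw [List.toFinset_cons, h2, Finset.insert_erase (Finset.mem_univ d)]
  obtain ⟨p, hp, hc, -⟩ := exists_walk χ (d :: l) hnd v (anti v) (endp_univ (d :: l) hnd hun v).symm
  rw [← h3]
  exact Nat.sInf_le ⟨p, hp, by rw [hc]; rfl⟩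

/-! ### One coupling step -/

/-- Fraction of `true` colours in a finite set. -/
noncomputable def frac {ι : Type*} (P : Finset ι) (c : ι → Bool) : ℝ :=
  (∑ d ∈ P, (if c d then (1 : ℝ) else 0)) / P.card

lemma sum_bool {ι : Type*} (P : Finset ι) (c : ι → Bool) (hP : P.Nonempty) (f : Bool → ℝ) :
    (∑ d ∈ P, f (c d)) / P.card = frac P c * f true + (1 - frac P c) * f false := by
  have hpos : (0 : ℝ) < P.card := by exact_mod_cast hP.card_pos
  have h : ∀ d ∈ P, f (c d) = (if c d then (1 : ℝ) else 0) * (f true - f false) + f false := by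
    intro d _
    by_cases hc : c d = true
    · simp [hc]
    · simp only [Bool.not_eq_true] at hc
      simp [hc]
  rw [Finset.sum_congr rfl h, Finset.sum_add_distrib, ← Finset.sum_mul, Finset.sum_const,
    nsmul_eq_mul]
  unfold frac
  field_simp
  ring

lemma frac_nonneg {ι : Type*} (P : Finset ι) (c : ι → Bool) : 0 ≤ frac P c := by
  unfold frac
  refine div_nonneg (Finset.sum_nonneg fun d _ => ?_) (Nat.cast_nonneg _)
  split_ifs <;> norm_num

lemma frac_le_one {ι : Type*} (P : Finset ι) (c : ι → Bool) : frac P c ≤ 1 := by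
  unfold frac
  rcases P.eq_empty_or_nonempty with rfl | hP
  · simp
  have hpos : (0 : ℝ) < P.card := by exact_mod_cast hP.card_pos
  rw [div_le_one hpos]
  calc ∑ d ∈ P, (if c d then (1 : ℝ) else 0) ≤ ∑ _d ∈ P, (1 : ℝ) :=
        Finset.sum_le_sum fun d _ => by split_ifs <;> norm_num
    _ = P.card := by simp

/-- The maximal coupling of a used direction `d ∈ P` and an unused direction `d ∈ R`. -/
lemma coupling {ι : Type*} (P R : Finset ι) (c : ι → Bool) (hP : P.Nonempty) (hR : R.Nonempty)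
    (f : Bool → ℝ) (G : ι → ℝ) (h : ∀ b, ∀ d ∈ R, f b ≤ (if b = c d then 0 else 1) + G d) :
    (∑ d ∈ P, f (c d)) / P.card ≤ |frac P c - frac R c| + (∑ d ∈ R, G d) / R.card := by
  rw [sum_bool P c hP f]
  have hRpos : (0 : ℝ) < R.card := by exact_mod_cast hR.card_pos
  have h1 : frac R c * max (f true) (f false - 1) + (1 - frac R c) * max (f false) (f true - 1)
      ≤ (∑ d ∈ R, G d) / R.card := by
    have hs := sum_bool R c hR (fun b => cond b (max (f true) (f false - 1))
      (max (f false) (f true - 1)))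
    simp only [cond_true, cond_false] at hs
    rw [← hs]
    refine div_le_div_of_nonneg_right (Finset.sum_le_sum fun d hd => ?_) hRpos.le
    have ht := h true d hd
    have hf := h false d hd
    cases hc : c d
    · rw [hc] at ht hf
      simp only [Bool.true_eq_false, if_false, if_true] at ht hf
      simp only [cond_false]
      exact max_le (by linarith) (by linarith)
    · rw [hc] at ht hf
      simp only [Bool.false_eq_true, if_false, if_true] at ht hf
      simp only [cond_true]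
      exact max_le (by linarith) (by linarith)
  have ha0 := frac_nonneg P c
  have ha1 := frac_le_one P c
  have hb0 := frac_nonneg R c
  have hb1 := frac_le_one R c
  set a := frac P c
  set b := frac R c
  have m1 := le_max_left (f true) (f false - 1)
  have m2 := le_max_right (f true) (f false - 1)
  have m3 := le_max_left (f false) (f true - 1)
  have m4 := le_max_right (f false) (f true - 1)
  set X := max (f true) (f false - 1)
  set Y := max (f false) (f true - 1)
  rcases le_total b a with hab | hab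
  · rw [abs_of_nonneg (by linarith)]
    have e1 : b * f true ≤ b * X := mul_le_mul_of_nonneg_left m1 hb0
    have e2 : (1 - a) * f false ≤ (1 - a) * Y := mul_le_mul_of_nonneg_left m3 (by linarith)
    have e3 : (a - b) * (f true - 1) ≤ (a - b) * Y := mul_le_mul_of_nonneg_left m4 (by linarith)
    nlinarith
  · rw [abs_of_nonpos (by linarith)]
    have e1 : a * f true ≤ a * X := mul_le_mul_of_nonneg_left m1 ha0
    have e2 : (1 - b) * f false ≤ (1 - b) * Y := mul_le_mul_of_nonneg_left m3 (by linarith)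
    have e3 : (b - a) * (f false - 1) ≤ (b - a) * X := mul_le_mul_of_nonneg_left m2 (by linarith)
    nlinarith

/-! ### Averaging over states -/

lemma sum_erase_eq {n : ℕ} (k : ℕ) (H : Finset (Fin n) → Fin n → ℝ) :
    ∑ D ∈ powersetCard (k + 1) (univ : Finset (Fin n)), ∑ d ∈ D, H (D.erase d) d
      = ∑ D ∈ powersetCard k (univ : Finset (Fin n)), ∑ d ∈ Dᶜ, H D d := by
  rw [Finset.sum_sigma', Finset.sum_sigma']
  refine Finset.sum_bij' (fun x _ => ⟨x.1.erase x.2, x.2⟩) (fun x _ => ⟨insert x.2 x.1, x.2⟩)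
    ?_ ?_ ?_ ?_ ?_
  · rintro ⟨D, d⟩ h
    simp only [Finset.mem_sigma, Finset.mem_powersetCard, Finset.subset_univ, true_and] at h ⊢
    refine ⟨?_, by simp⟩
    rw [Finset.card_erase_of_mem h.2, h.1]
    rfl
  · rintro ⟨D, d⟩ h
    simp only [Finset.mem_sigma, Finset.mem_powersetCard, Finset.subset_univ, true_and,
      Finset.mem_compl] at h ⊢
    refine ⟨?_, by simp⟩
    rw [Finset.card_insert_of_notMem h.2, h.1]
  · rintro ⟨D, d⟩ h
    simp only [Finset.mem_sigma] at h
    simp [Finset.insert_erase h.2]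
  · rintro ⟨D, d⟩ h
    simp only [Finset.mem_sigma, Finset.mem_compl] at h
    simp [Finset.erase_insert h.2]
  · rintro ⟨D, d⟩ h
    rfl

lemma sum_flip {n : ℕ} (d : Fin n) (f : V n → ℝ) : ∑ w : V n, f (flip w d) = ∑ w : V n, f w :=
  Finset.sum_bij' (fun w _ => flip w d) (fun w _ => flip w d) (by simp) (by simp)
    (by simp [flip_flip]) (by simp [flip_flip]) (by simp)

/-- The total cost-to-go over all states with `k` unused directions. -/
noncomputable def Phi {n : ℕ} (χ : Sym2 (V n) → Bool) (k : ℕ) : ℝ :=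
  ∑ w : V n, ∑ D ∈ powersetCard k (univ : Finset (Fin n)), ∑ d ∈ Dᶜ, (F χ w D (ecol χ w d) : ℝ)

lemma Phi_zero {n : ℕ} (χ : Sym2 (V n) → Bool) : Phi χ 0 = 0 := by
  unfold Phi
  simp [F_empty]

/-- The discrepancy term at level `k`. -/
noncomputable def Delta {n : ℕ} (χ : Sym2 (V n) → Bool) (k : ℕ) : ℝ :=
  ∑ w : V n, ∑ D ∈ powersetCard k (univ : Finset (Fin n)),
    |frac Dᶜ (ecol χ w) - frac D (ecol χ w)|

lemma Phi_alt {n : ℕ} (χ : Sym2 (V n) → Bool) (k : ℕ) :
    ∑ w : V n, ∑ D ∈ powersetCard (k + 1) (univ : Finset (Fin n)), ∑ d ∈ D,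
      (F χ (flip w d) (D.erase d) (ecol χ w d) : ℝ) = Phi χ k := by
  unfold Phi
  rw [Finset.sum_comm]
  have h1 : ∀ D ∈ powersetCard (k + 1) (univ : Finset (Fin n)),
      ∑ w : V n, ∑ d ∈ D, (F χ (flip w d) (D.erase d) (ecol χ w d) : ℝ)
        = ∑ d ∈ D, ∑ w : V n, (F χ w (D.erase d) (ecol χ w d) : ℝ) := by
    intro D _
    rw [Finset.sum_comm]
    refine Finset.sum_congr rfl fun d _ => ?_
    rw [← sum_flip d (fun w => (F χ w (D.erase d) (ecol χ w d) : ℝ))]
    refine Finset.sum_congr rfl fun w _ => ?_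
    rw [ecol_flip]
  rw [Finset.sum_congr rfl h1,
    sum_erase_eq k (fun D d => ∑ w : V n, (F χ w D (ecol χ w d) : ℝ))]
  symm
  rw [Finset.sum_comm]
  refine Finset.sum_congr rfl fun D _ => ?_
  rw [Finset.sum_comm]

lemma Phi_step {n : ℕ} (χ : Sym2 (V n) → Bool) (k : ℕ) (hk : k + 1 < n) :
    Phi χ (k + 1) / (n - (k + 1) : ℕ) ≤ Delta χ (k + 1) + Phi χ k / (k + 1 : ℕ) := by
  rw [← Phi_alt χ k]
  unfold Phi Delta
  rw [Finset.sum_div, Finset.sum_div, ← Finset.sum_add_distrib]
  refine Finset.sum_le_sum fun w _ => ?_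
  rw [Finset.sum_div, Finset.sum_div, ← Finset.sum_add_distrib]
  refine Finset.sum_le_sum fun D hD => ?_
  rw [Finset.mem_powersetCard] at hD
  have hDc : (Dᶜ).card = n - (k + 1) := by
    rw [Finset.card_compl, Fintype.card_fin, hD.2]
  have hP : (Dᶜ).Nonempty := by
    rw [← Finset.card_pos, hDc]; omega
  have hR : D.Nonempty := by
    rw [← Finset.card_pos, hD.2]; omega
  have := coupling Dᶜ D (ecol χ w) hP hR (fun b => (F χ w D b : ℝ))
    (fun d => (F χ (flip w d) (D.erase d) (ecol χ w d) : ℝ)) (by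
      intro b d hd
      have := F_step χ w D b d hd
      have h2 : (F χ w D b : ℝ) ≤ ((if b = ecol χ w d then 0 else 1 : ℕ) : ℝ)
        + (F χ (flip w d) (D.erase d) (ecol χ w d) : ℝ) := by exact_mod_cast this
      simpa using h2)
  rw [hDc, hD.2] at this
  exact this

/-! ### The second moment -/

/-- The weights of the difference of the two averages. -/
noncomputable def wgt {n : ℕ} (k : ℕ) (D : Finset (Fin n)) (i : Fin n) : ℝ :=
  if i ∈ D then -(1 / (k : ℝ)) else 1 / ((n - k : ℕ) : ℝ)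

/-- The matrix of second moments of the weights. -/
noncomputable def T {n : ℕ} (k : ℕ) (i j : Fin n) : ℝ :=
  ∑ D ∈ powersetCard k (univ : Finset (Fin n)), wgt k D i * wgt k D j

lemma wgt_map {n : ℕ} (k : ℕ) (D : Finset (Fin n)) (π : Equiv.Perm (Fin n)) (i : Fin n) :
    wgt k (D.map π.toEmbedding) (π i) = wgt k D i := by
  unfold wgt
  simp

lemma T_perm {n : ℕ} (k : ℕ) (π : Equiv.Perm (Fin n)) (i j : Fin n) :
    T k (π i) (π j) = T k i j := by
  unfold T
  symm
  refine Finset.sum_bij' (fun D _ => D.map π.toEmbedding) (fun D _ => D.map π.symm.toEmbedding)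
    ?_ ?_ ?_ ?_ ?_
  · intro D hD
    simpa [Finset.mem_powersetCard] using hD
  · intro D hD
    simpa [Finset.mem_powersetCard] using hD
  · intro D _
    ext x; simp
  · intro D _
    ext x; simp
  · intro D _
    rw [wgt_map, wgt_map]

lemma sum_wgt {n : ℕ} (k : ℕ) (hk : 1 ≤ k) (hkn : k < n) (D : Finset (Fin n))
    (hD : D.card = k) : ∑ i, wgt k D i = 0 := by
  unfold wgt
  rw [← Finset.sum_add_sum_compl D]
  rw [Finset.sum_congr rfl (fun i hi => if_pos hi),
    Finset.sum_congr (s₁ := Dᶜ) rfl (fun i hi => if_neg (Finset.mem_compl.mp hi)),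
    Finset.sum_const, Finset.sum_const, Finset.card_compl, Fintype.card_fin, hD, nsmul_eq_mul,
    nsmul_eq_mul]
  have h1 : (k : ℝ) ≠ 0 := by positivity
  have h2 : ((n - k : ℕ) : ℝ) ≠ 0 := by
    have : 0 < n - k := by omega
    positivity
  field_simp
  ring

lemma sum_wgt_sq {n : ℕ} (k : ℕ) (hk : 1 ≤ k) (hkn : k < n) (D : Finset (Fin n))
    (hD : D.card = k) : ∑ i, wgt k D i * wgt k D i = 1 / (k : ℝ) + 1 / ((n - k : ℕ) : ℝ) := by
  unfold wgt
  rw [← Finset.sum_add_sum_compl D]
  rw [Finset.sum_congr rfl (g := fun _ => (1 / (k : ℝ)) * (1 / (k : ℝ)))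
      (fun i hi => by rw [if_pos hi]; ring),
    Finset.sum_congr (s₁ := Dᶜ) rfl (g := fun _ => (1 / ((n - k : ℕ) : ℝ)) * (1 / ((n - k : ℕ) : ℝ)))
      (fun i hi => by rw [if_neg (Finset.mem_compl.mp hi)]),
    Finset.sum_const, Finset.sum_const, Finset.card_compl, Fintype.card_fin, hD, nsmul_eq_mul,
    nsmul_eq_mul]
  have h1 : (k : ℝ) ≠ 0 := by positivity
  have h2 : ((n - k : ℕ) : ℝ) ≠ 0 := by
    have : 0 < n - k := by omega
    positivity
  field_simp

lemma sum_T {n : ℕ} (k : ℕ) (hk : 1 ≤ k) (hkn : k < n) (i : Fin n) : ∑ j, T k i j = 0 := by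
  unfold T
  rw [Finset.sum_comm]
  refine Finset.sum_eq_zero fun D hD => ?_
  rw [Finset.mem_powersetCard] at hD
  rw [← Finset.mul_sum, sum_wgt k hk hkn D hD.2, mul_zero]

lemma T_diag {n : ℕ} (k : ℕ) (hk : 1 ≤ k) (hkn : k < n) (i : Fin n) :
    (n : ℝ) * T k i i = (n.choose k : ℝ) * (1 / (k : ℝ) + 1 / ((n - k : ℕ) : ℝ)) := by
  have h1 : ∑ j : Fin n, T k j j = (n : ℝ) * T k i i := by
    have : ∀ j ∈ (univ : Finset (Fin n)), T k j j = T k i i := by
      intro j _
      have := T_perm k (Equiv.swap i j) i i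
      rw [Equiv.swap_apply_left] at this
      exact this
    rw [Finset.sum_congr rfl this, Finset.sum_const, Finset.card_univ, Fintype.card_fin,
      nsmul_eq_mul]
  rw [← h1]
  unfold T
  rw [Finset.sum_comm]
  have : ∀ D ∈ powersetCard k (univ : Finset (Fin n)), ∑ j, wgt k D j * wgt k D j
      = 1 / (k : ℝ) + 1 / ((n - k : ℕ) : ℝ) := by
    intro D hD
    rw [Finset.mem_powersetCard] at hD
    exact sum_wgt_sq k hk hkn D hD.2
  rw [Finset.sum_congr rfl this, Finset.sum_const, Finset.card_powersetCard, Finset.card_univ,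
    Fintype.card_fin, nsmul_eq_mul]

lemma T_off {n : ℕ} (k : ℕ) (hk : 1 ≤ k) (hkn : k < n) (i j : Fin n) (hij : i ≠ j) :
    ((n : ℝ) - 1) * T k i j = - T k i i := by
  have h0 := sum_T k hk hkn i
  rw [← Finset.add_sum_erase _ _ (Finset.mem_univ i)] at h0
  have h1 : ∀ l ∈ (univ : Finset (Fin n)).erase i, T k i l = T k i j := by
    intro l hl
    have hl' : l ≠ i := Finset.ne_of_mem_erase hl
    have := T_perm k (Equiv.swap j l) i j
    rw [Equiv.swap_apply_left, Equiv.swap_apply_of_ne_of_ne hij hl'.symm] at this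
    exact this
  rw [Finset.sum_congr rfl h1, Finset.sum_const, Finset.card_erase_of_mem (Finset.mem_univ i),
    Finset.card_univ, Fintype.card_fin, nsmul_eq_mul, Nat.cast_sub (by omega)] at h0
  push_cast at h0
  linarith

lemma moment {n : ℕ} (k : ℕ) (hk : 1 ≤ k) (hkn : k < n) (y : Fin n → ℝ)
    (hy : ∀ i, y i * y i = 1 / 4) :
    ∑ D ∈ powersetCard k (univ : Finset (Fin n)), (∑ i, wgt k D i * y i) ^ 2
      ≤ (n.choose k : ℝ) * ((n : ℝ) ^ 2 / (4 * ((n : ℝ) - 1) * (k * ((n : ℝ) - k)))) := by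
  have hn1 : (0 : ℝ) < (n : ℝ) - 1 := by
    have : (1 : ℝ) < n := by exact_mod_cast (by omega : 1 < n)
    linarith
  have hn0 : (0 : ℝ) < n := by linarith
  have hk0 : (0 : ℝ) < k := by exact_mod_cast (by omega : 0 < k)
  have hkn0 : (0 : ℝ) < (n : ℝ) - k := by
    have : (k : ℝ) < n := by exact_mod_cast hkn
    linarith
  have hT : ∀ i j : Fin n, T k i j
      = (n.choose k : ℝ) / (k * ((n : ℝ) - k)) * ((if i = j then (n : ℝ) / ((n : ℝ) - 1) else 0)
        - 1 / ((n : ℝ) - 1)) := by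
    intro i j
    have hd := T_diag k hk hkn i
    rw [Nat.cast_sub hkn.le] at hd
    have hd' : T k i i = (n.choose k : ℝ) / (k * ((n : ℝ) - k)) := by
      have : (n : ℝ) * T k i i = (n : ℝ) * ((n.choose k : ℝ) / (k * ((n : ℝ) - k))) := by
        rw [hd]; field_simp; ring
      exact mul_left_cancel₀ hn0.ne' this
    by_cases hij : i = j
    · subst hij
      rw [hd', if_pos rfl]
      field_simp
      try ring
    · have ho := T_off k hk hkn i j hij
      rw [if_neg hij]
      have : ((n : ℝ) - 1) * T k i j = ((n : ℝ) - 1) * ((n.choose k : ℝ) / (k * ((n : ℝ) - k)) *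
          (0 - 1 / ((n : ℝ) - 1))) := by
        rw [ho, hd']; field_simp; ring
      exact mul_left_cancel₀ hn1.ne' this
  have hexp : ∑ D ∈ powersetCard k (univ : Finset (Fin n)), (∑ i, wgt k D i * y i) ^ 2
      = ∑ i, ∑ j, y i * y j * T k i j := by
    unfold T
    simp_rw [Finset.mul_sum]
    rw [Finset.sum_congr rfl (fun i _ => Finset.sum_comm), Finset.sum_comm]
    refine Finset.sum_congr rfl fun D _ => ?_
    rw [pow_two, Finset.sum_mul_sum]
    refine Finset.sum_congr rfl fun i _ => Finset.sum_congr rfl fun j _ => ?_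
    ring
  rw [hexp]
  have hq : ∑ i, ∑ j, y i * y j * T k i j
      = (n.choose k : ℝ) / (k * ((n : ℝ) - k)) * ((n : ℝ) / ((n : ℝ) - 1) * ∑ i, y i * y i
        - 1 / ((n : ℝ) - 1) * (∑ i, y i) ^ 2) := by
    have h1 : ∀ i ∈ (univ : Finset (Fin n)), ∑ j, y i * y j * T k i j
        = (n.choose k : ℝ) / (k * ((n : ℝ) - k)) * ((n : ℝ) / ((n : ℝ) - 1) * (y i * y i)
          - 1 / ((n : ℝ) - 1) * (y i * ∑ j, y j)) := by
      intro i _
      have h2 : ∀ j ∈ (univ : Finset (Fin n)), y i * y j * T k i j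
          = (n.choose k : ℝ) / (k * ((n : ℝ) - k)) * ((n : ℝ) / ((n : ℝ) - 1)
            * (if i = j then y i * y j else 0) - 1 / ((n : ℝ) - 1) * (y i * y j)) := by
        intro j _
        rw [hT i j]
        by_cases hij : i = j
        · simp only [hij, if_true]; ring
        · simp only [hij, if_false]; ring
      rw [Finset.sum_congr rfl h2, ← Finset.mul_sum, Finset.sum_sub_distrib, ← Finset.mul_sum,
        ← Finset.mul_sum, Finset.sum_ite_eq, if_pos (Finset.mem_univ i), ← Finset.mul_sum]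
    rw [Finset.sum_congr rfl h1, ← Finset.mul_sum, Finset.sum_sub_distrib, ← Finset.mul_sum,
      ← Finset.mul_sum, ← Finset.sum_mul, pow_two]
  rw [hq]
  have hyy : ∑ i : Fin n, y i * y i = n / 4 := by
    rw [Finset.sum_congr rfl (fun i _ => hy i), Finset.sum_const, Finset.card_univ,
      Fintype.card_fin, nsmul_eq_mul]
    ring
  rw [hyy]
  have hsq : 0 ≤ 1 / ((n : ℝ) - 1) * (∑ i, y i) ^ 2 := by positivity
  calc (n.choose k : ℝ) / (k * ((n : ℝ) - k)) * ((n : ℝ) / ((n : ℝ) - 1) * (n / 4)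
        - 1 / ((n : ℝ) - 1) * (∑ i, y i) ^ 2)
      ≤ (n.choose k : ℝ) / (k * ((n : ℝ) - k)) * ((n : ℝ) / ((n : ℝ) - 1) * (n / 4)) := by
        refine mul_le_mul_of_nonneg_left (by linarith) (by positivity)
    _ = (n.choose k : ℝ) * ((n : ℝ) ^ 2 / (4 * ((n : ℝ) - 1) * (k * ((n : ℝ) - k)))) := by
        field_simp

lemma frac_sub {n : ℕ} (k : ℕ) (hk : 1 ≤ k) (hkn : k < n) (c : Fin n → Bool)
    (D : Finset (Fin n)) (hD : D.card = k) :
    frac Dᶜ c - frac D c = ∑ i, wgt k D i * ((if c i then (1 : ℝ) else 0) - 1 / 2) := by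
  have h0 := sum_wgt k hk hkn D hD
  have h1 : ∑ i, wgt k D i * ((if c i then (1 : ℝ) else 0) - 1 / 2)
      = ∑ i, wgt k D i * (if c i then (1 : ℝ) else 0) := by
    simp_rw [mul_sub, Finset.sum_sub_distrib, ← Finset.sum_mul, h0]
    ring
  have hA : ∑ i ∈ D, wgt k D i * (if c i then (1 : ℝ) else 0)
      = -(1 / (k : ℝ)) * ∑ i ∈ D, (if c i then (1 : ℝ) else 0) := by
    rw [Finset.mul_sum]
    refine Finset.sum_congr rfl fun i hi => ?_
    unfold wgt
    rw [if_pos hi]
  have hB : ∑ i ∈ Dᶜ, wgt k D i * (if c i then (1 : ℝ) else 0)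
      = (1 / ((n - k : ℕ) : ℝ)) * ∑ i ∈ Dᶜ, (if c i then (1 : ℝ) else 0) := by
    rw [Finset.mul_sum]
    refine Finset.sum_congr rfl fun i hi => ?_
    unfold wgt
    rw [if_neg (Finset.mem_compl.mp hi)]
  rw [h1, ← Finset.sum_add_sum_compl D, hA, hB]
  unfold frac
  rw [Finset.card_compl, Fintype.card_fin, hD]
  ring

/-- The mean discrepancy at one vertex. -/
lemma disc_le {n : ℕ} (k : ℕ) (hk : 1 ≤ k) (hkn : k < n) (c : Fin n → Bool) :
    ∑ D ∈ powersetCard k (univ : Finset (Fin n)), |frac Dᶜ c - frac D c|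
      ≤ (n.choose k : ℝ) * ((n : ℝ) / (2 * √((n : ℝ) - 1)) * (1 / √(k * ((n : ℝ) - k)))) := by
  have hn1 : (0 : ℝ) < (n : ℝ) - 1 := by
    have : (1 : ℝ) < n := by exact_mod_cast (by omega : 1 < n)
    linarith
  have hn0 : (0 : ℝ) < n := by linarith
  have hk0 : (0 : ℝ) < k := by exact_mod_cast (by omega : 0 < k)
  have hkn0 : (0 : ℝ) < (n : ℝ) - k := by
    have : (k : ℝ) < n := by exact_mod_cast hkn
    linarith
  have hcs := Finset.sum_mul_sq_le_sq_mul_sq (powersetCard k (univ : Finset (Fin n)))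
    (fun _ => (1 : ℝ)) (fun D => |frac Dᶜ c - frac D c|)
  simp only [one_mul, one_pow, Finset.sum_const, Finset.card_powersetCard, Finset.card_univ,
    Fintype.card_fin, nsmul_eq_mul, mul_one, sq_abs] at hcs
  have hm : ∑ D ∈ powersetCard k (univ : Finset (Fin n)), (frac Dᶜ c - frac D c) ^ 2
      ≤ (n.choose k : ℝ) * ((n : ℝ) ^ 2 / (4 * ((n : ℝ) - 1) * (k * ((n : ℝ) - k)))) := by
    have := moment k hk hkn (fun i => (if c i then (1 : ℝ) else 0) - 1 / 2) (by
      intro i
      by_cases hc : c i = true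
      · simp only [hc, if_true]; norm_num
      · simp only [hc]; norm_num)
    refine le_trans (le_of_eq ?_) this
    refine Finset.sum_congr rfl fun D hD => ?_
    rw [Finset.mem_powersetCard] at hD
    rw [frac_sub k hk hkn c D hD.2]
  have hC : (0 : ℝ) ≤ (n.choose k : ℝ) := Nat.cast_nonneg _
  have h2 : (∑ D ∈ powersetCard k (univ : Finset (Fin n)), |frac Dᶜ c - frac D c|) ^ 2
      ≤ ((n.choose k : ℝ) * ((n : ℝ) / (2 * √((n : ℝ) - 1)) * (1 / √(k * ((n : ℝ) - k))))) ^ 2 := by
    refine hcs.trans ?_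
    have h3 := mul_le_mul_of_nonneg_left hm hC
    refine h3.trans (le_of_eq ?_)
    rw [mul_pow, mul_pow, div_pow, div_pow, mul_pow, Real.sq_sqrt hn1.le,
      Real.sq_sqrt (by positivity)]
    field_simp
    ring
  exact abs_le_of_sq_le_sq' h2 (by positivity) |>.2

/-! ### The arcsine sum -/

lemma arcsin_step (x δ : ℝ) (hδ : 0 ≤ δ) (h1 : x + δ ≤ 1) (h2 : -1 ≤ x - δ) (hx : 0 < 1 - x ^ 2) :
    2 * (δ / √(1 - x ^ 2)) ≤ Real.arcsin (x + δ) - Real.arcsin (x - δ) := by
  set a := Real.arcsin (x + δ) with ha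
  set b := Real.arcsin (x - δ) with hb
  have hsa : Real.sin a = x + δ := Real.sin_arcsin (by linarith) h1
  have hsb : Real.sin b = x - δ := Real.sin_arcsin h2 (by linarith)
  have hab : b ≤ a := Real.monotone_arcsin (by linarith)
  have ha1 : a ≤ Real.pi / 2 := Real.arcsin_le_pi_div_two _
  have hb1 : -(Real.pi / 2) ≤ b := Real.neg_pi_div_two_le_arcsin _
  set u := (a - b) / 2 with hu
  set t := (a + b) / 2 with ht
  have hau : a = t + u := by rw [hu, ht]; ring
  have hbu : b = t - u := by rw [hu, ht]; ring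
  have hu0 : 0 ≤ u := by rw [hu]; linarith
  have hct : 0 ≤ Real.cos t := Real.cos_nonneg_of_mem_Icc ⟨by rw [ht]; linarith, by rw [ht]; linarith⟩
  have hsu : 0 ≤ Real.sin u := Real.sin_nonneg_of_nonneg_of_le_pi hu0 (by rw [hu]; linarith)
  rw [hau, Real.sin_add] at hsa
  rw [hbu, Real.sin_sub] at hsb
  have hδ' : δ = Real.cos t * Real.sin u := by linarith
  have hx' : x = Real.sin t * Real.cos u := by linarith
  have hle : Real.cos t ≤ √(1 - x ^ 2) := by
    refine Real.le_sqrt_of_sq_le ?_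
    have e1 := Real.sin_sq_add_cos_sq t
    have e2 := Real.sin_sq_add_cos_sq u
    rw [hx']
    nlinarith [mul_nonneg (sq_nonneg (Real.sin t)) (sq_nonneg (Real.sin u))]
  have hpos : 0 < √(1 - x ^ 2) := Real.sqrt_pos.mpr hx
  have h3 : δ / √(1 - x ^ 2) ≤ Real.sin u := by
    rw [div_le_iff₀ hpos, hδ']
    nlinarith
  have h4 : Real.sin u ≤ u := Real.sin_le hu0
  have h5 : a - b = 2 * u := by rw [hu]; ring
  linarith

lemma arcsin_sum {n : ℕ} (K : ℕ) (hK : K < n) :
    ∑ k ∈ Finset.range K, 1 / √(((k + 1 : ℕ) : ℝ) * ((n : ℝ) - ((k + 1 : ℕ) : ℝ)))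
      ≤ Real.arcsin ((2 * K + 1) / n - 1) - Real.arcsin (1 / n - 1) := by
  have hn0 : (0 : ℝ) < n := by exact_mod_cast (by omega : 0 < n)
  induction K with
  | zero => simp
  | succ K ih =>
    rw [Finset.sum_range_succ]
    have ih' := ih (by omega)
    have hKn : ((K : ℝ) + 1) < n := by exact_mod_cast hK
    have hK0 : (0 : ℝ) ≤ K := Nat.cast_nonneg _
    have hstep := arcsin_step (2 * ((K : ℝ) + 1) / n - 1) (1 / n) (by positivity) (by
        have : (2 * ((K : ℝ) + 1) + 1) / n ≤ 2 := by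
          rw [div_le_iff₀ hn0]
          have : ((K : ℝ) + 1) + 1 ≤ n := by exact_mod_cast hK
          linarith
        have e : 2 * ((K : ℝ) + 1) / n - 1 + 1 / n = (2 * ((K : ℝ) + 1) + 1) / n - 1 := by
          field_simp
          ring
        rw [e]; linarith) (by
        have : 0 ≤ (2 * ((K : ℝ) + 1) - 1) / n := div_nonneg (by linarith) hn0.le
        have e : 2 * ((K : ℝ) + 1) / n - 1 - 1 / n = (2 * ((K : ℝ) + 1) - 1) / n - 1 := by
          field_simp
          ring
        rw [e]; linarith) (by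
        have e : 1 - (2 * ((K : ℝ) + 1) / n - 1) ^ 2
            = 4 * (((K : ℝ) + 1) * (n - ((K : ℝ) + 1))) / n ^ 2 := by
          field_simp
          ring
        rw [e]
        have : (0 : ℝ) < n - ((K : ℝ) + 1) := by linarith
        positivity)
    have e1 : 1 - (2 * ((K : ℝ) + 1) / n - 1) ^ 2
            = (2 / n) ^ 2 * (((K : ℝ) + 1) * (n - ((K : ℝ) + 1))) := by
      field_simp
      ring
    rw [e1, Real.sqrt_mul (by positivity), Real.sqrt_sq (by positivity)] at hstep
    have hpos : 0 < √(((K : ℝ) + 1) * (n - ((K : ℝ) + 1))) := by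
      apply Real.sqrt_pos.mpr
      have : (0 : ℝ) < n - ((K : ℝ) + 1) := by linarith
      positivity
    have e2 : 2 * (1 / (n : ℝ) / (2 / n * √(((K : ℝ) + 1) * (n - ((K : ℝ) + 1)))))
        = 1 / √(((K : ℝ) + 1) * (n - ((K : ℝ) + 1))) := by
      field_simp
    rw [e2] at hstep
    have e3 : 2 * ((K : ℝ) + 1) / n - 1 + 1 / n = (2 * ((K + 1 : ℕ) : ℝ) + 1) / n - 1 := by
      push_cast
      field_simp
      ring
    have e4 : 2 * ((K : ℝ) + 1) / n - 1 - 1 / n = (2 * (K : ℝ) + 1) / n - 1 := by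
      field_simp
      ring
    rw [e3, e4] at hstep
    push_cast at hstep ih' ⊢
    linarith

/-! ### The upper bound -/

lemma Phi_le {n : ℕ} (χ : Sym2 (V n) → Bool) (K : ℕ) (hK : K < n) :
    Phi χ K / ((n.choose K : ℝ) * ((n - K : ℕ) : ℝ)) ≤ 2 ^ n * ((n : ℝ) / (2 * √((n : ℝ) - 1))) *
      ∑ k ∈ Finset.range K, 1 / √(((k + 1 : ℕ) : ℝ) * ((n : ℝ) - ((k + 1 : ℕ) : ℝ))) := by
  induction K with
  | zero => simp [Phi_zero]
  | succ K ih =>
    rw [Finset.sum_range_succ, mul_add]
    have ih' := ih (by omega)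
    have hs := Phi_step χ K hK
    have hC : (0 : ℝ) < (n.choose (K + 1) : ℝ) := by
      exact_mod_cast Nat.choose_pos hK.le
    have hD : Delta χ (K + 1) ≤ 2 ^ n * ((n.choose (K + 1) : ℝ) * ((n : ℝ) / (2 * √((n : ℝ) - 1))
        * (1 / √(((K + 1 : ℕ) : ℝ) * ((n : ℝ) - ((K + 1 : ℕ) : ℝ)))))) := by
      unfold Delta
      refine (Finset.sum_le_sum fun w _ => disc_le (K + 1) (by omega) hK (ecol χ w)).trans ?_
      rw [Finset.sum_const, Finset.card_univ, nsmul_eq_mul]
      refine le_of_eq ?_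
      congr 1
      simp
    have hK1 : ((K + 1 : ℕ) : ℝ) * (n.choose (K + 1) : ℝ) = (n.choose K : ℝ) * ((n - K : ℕ) : ℝ) := by
      have := Nat.choose_succ_right_eq n K
      rw [mul_comm]
      exact_mod_cast this
    have hn1 : (0 : ℝ) < ((n - (K + 1) : ℕ) : ℝ) := by
      exact_mod_cast (by omega : 0 < n - (K + 1))
    have hK0 : (0 : ℝ) < ((K + 1 : ℕ) : ℝ) := by positivity
    calc Phi χ (K + 1) / ((n.choose (K + 1) : ℝ) * ((n - (K + 1) : ℕ) : ℝ))
        = (Phi χ (K + 1) / ((n - (K + 1) : ℕ) : ℝ)) / (n.choose (K + 1) : ℝ) := by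
          field_simp
      _ ≤ (Delta χ (K + 1) + Phi χ K / (K + 1 : ℕ)) / (n.choose (K + 1) : ℝ) :=
          div_le_div_of_nonneg_right hs hC.le
      _ = Delta χ (K + 1) / (n.choose (K + 1) : ℝ)
            + Phi χ K / ((n.choose K : ℝ) * ((n - K : ℕ) : ℝ)) := by
          rw [← hK1]
          field_simp
      _ ≤ _ := by
          rw [add_comm]
          refine add_le_add ih' ?_
          rw [div_le_iff₀ hC]
          refine hD.trans (le_of_eq ?_)
          ring

lemma sum_m_le {n : ℕ} (χ : Sym2 (V n) → Bool) (hn : 1 ≤ n) :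
    (n : ℝ) * ∑ v : V n, (m χ v : ℝ) ≤ Phi χ (n - 1) := by
  obtain ⟨k, rfl⟩ : ∃ k, n = k + 1 := ⟨n - 1, by omega⟩
  rw [Nat.add_sub_cancel, ← Phi_alt χ k]
  have h1 : powersetCard (k + 1) (univ : Finset (Fin (k + 1))) = {univ} := by
    have := Finset.powersetCard_self (univ : Finset (Fin (k + 1)))
    rwa [Finset.card_univ, Fintype.card_fin] at this
  rw [h1]
  simp only [Finset.sum_singleton]
  rw [Finset.mul_sum]
  refine Finset.sum_le_sum fun v _ => ?_
  calc ((k + 1 : ℕ) : ℝ) * (m χ v : ℝ) = ∑ _d : Fin (k + 1), (m χ v : ℝ) := by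
        rw [Finset.sum_const, Finset.card_univ, Fintype.card_fin, nsmul_eq_mul]
    _ ≤ ∑ d : Fin (k + 1), (F χ (flip v d) (Finset.univ.erase d) (ecol χ v d) : ℝ) :=
        Finset.sum_le_sum fun d _ => by exact_mod_cast m_le χ v d

lemma A_le {n : ℕ} (χ : Sym2 (V n) → Bool) (hn : 2 ≤ n) :
    A χ ≤ Real.pi / 2 * (n / √((n : ℝ) - 1)) := by
  have h1 := sum_m_le χ (by omega : 1 ≤ n)
  have h2 := Phi_le χ (n - 1) (by omega)
  have hn0 : (0 : ℝ) < n := by exact_mod_cast (by omega : 0 < n)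
  have hn1 : (0 : ℝ) < (n : ℝ) - 1 := by
    have : (1 : ℝ) < n := by exact_mod_cast (by omega : 1 < n)
    linarith
  have h3 : (n.choose (n - 1) : ℝ) * ((n - (n - 1) : ℕ) : ℝ) = n := by
    have e1 : n - (n - 1) = 1 := by omega
    have e2 : n.choose (n - 1) = n := by
      rw [Nat.choose_symm (by omega : 1 ≤ n), Nat.choose_one_right]
    rw [e1, e2]; simp
  rw [h3] at h2
  have h4 := arcsin_sum (n := n) (n - 1) (by omega)
  have h5 := Real.arcsin_le_pi_div_two ((2 * ((n - 1 : ℕ) : ℝ) + 1) / n - 1)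
  have h6 := Real.neg_pi_div_two_le_arcsin (1 / (n : ℝ) - 1)
  have h7 : ∑ k ∈ Finset.range (n - 1), 1 / √(((k + 1 : ℕ) : ℝ) * ((n : ℝ) - ((k + 1 : ℕ) : ℝ)))
      ≤ Real.pi := by linarith
  have hsq : 0 < √((n : ℝ) - 1) := Real.sqrt_pos.mpr hn1
  have h8 : Phi χ (n - 1) / n ≤ 2 ^ n * ((n : ℝ) / (2 * √((n : ℝ) - 1))) * Real.pi :=
    h2.trans (mul_le_mul_of_nonneg_left h7 (by positivity))
  have h9 : ∑ v : V n, (m χ v : ℝ) ≤ Phi χ (n - 1) / n := by
    rw [le_div_iff₀ hn0]
    linarith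
  unfold A
  rw [div_le_iff₀ (by positivity)]
  refine (h9.trans h8).trans (le_of_eq ?_)
  field_simp

end Pool.Agent.Hhelper43.Cube
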