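import Mathlib
import Pool.Agent.Hhelper43.Cube.Defs
import Pool.Agent.Hhelper43.Cube.Upper

set_option autoImplicit false

namespace Pool.Agent.Hhelper43.Cube

open Finset

/-! ### The lower bound: a colouring with two families of walls -/

/-- The weight of a vertex. -/
def wt {n : ℕ} (v : V n) : ℕ := #{i | v i = true}

lemma wt_anti {n : ℕ} (v : V n) : wt (anti v) + wt v = n := by
  have h := Finset.card_filter_add_card_filter_not (s := (univ : Finset (Fin n)))
    (fun i => v i = true)
  rw [Finset.card_univ, Fintype.card_fin] at h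
  have h2 : wt (anti v) = #{i | ¬ v i = true} := by
    unfold wt anti
    congr 1
    ext i
    simp
  rw [h2, add_comm]
  exact h

lemma wt_flip {n : ℕ} (v : V n) (d : Fin n) :
    (v d = true ∧ wt (flip v d) + 1 = wt v) ∨ (v d = false ∧ wt (flip v d) = wt v + 1) := by
  unfold wt
  by_cases h : v d = true
  · left
    refine ⟨h, ?_⟩
    have h1 : (univ.filter fun i => flip v d i = true) = (univ.filter fun i => v i = true).erase d := by
      ext i
      simp only [Finset.mem_filter, Finset.mem_univ, true_and, Finset.mem_erase, flip_apply]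
      by_cases hi : i = d
      · subst hi; simp [h]
      · simp [hi]
    rw [h1, Finset.card_erase_of_mem (by simp [h])]
    have : 0 < #{i | v i = true} := Finset.card_pos.mpr ⟨d, by simp [h]⟩
    omega
  · right
    have h' : v d = false := by simpa using h
    refine ⟨h', ?_⟩
    have h1 : (univ.filter fun i => flip v d i = true) = insert d (univ.filter fun i => v i = true) := by
      ext i
      simp only [Finset.mem_filter, Finset.mem_univ, true_and, Finset.mem_insert, flip_apply]
      by_cases hi : i = d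
      · subst hi; simp [h']
      · simp [hi]
    rw [h1, Finset.card_insert_of_notMem (by simp [h'])]

lemma adj_iff {n : ℕ} (u w : V n) (h : (Q n).Adj u w) : ∃ d, w = flip u d := by
  have h' : hammingDist u w = 1 := h
  unfold hammingDist at h'
  rw [Finset.card_eq_one] at h'
  obtain ⟨d, hd⟩ := h'
  refine ⟨d, ?_⟩
  funext i
  have hi := Finset.ext_iff.mp hd i
  simp only [Finset.mem_filter, Finset.mem_univ, true_and, Finset.mem_singleton] at hi
  rw [flip_apply]
  by_cases hid : i = d
  · rw [if_pos hid]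
    have := hi.mpr hid
    cases h1 : u i <;> cases h2 : w i <;> simp_all
  · rw [if_neg hid]
    by_contra hne
    exact hid (hi.mp (fun he => hne he.symm))

lemma adj_flip_flip {n : ℕ} (u w : V n) (z : Fin n) (h : (Q n).Adj u w) :
    (Q n).Adj (flip u z) (flip w z) := by
  obtain ⟨d, rfl⟩ := adj_iff u w h
  have : flip (flip u d) z = flip (flip u z) d := by
    funext i
    simp only [flip_apply]
    split_ifs <;> simp_all
  rw [this]
  exact adj_flip _ _

/-- The level of an edge whose endpoints have weights `a` and `b`. -/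
def lev (h a b : ℕ) : ℕ := (min a b + h) / 2

lemma lev_comm (h a b : ℕ) : lev h a b = lev h b a := by
  unfold lev
  rw [min_comm]

/-- The colouring with two families of walls. -/
def chi0 {N : ℕ} (h : ℕ) (z : Fin N) : Sym2 (V N) → Bool :=
  Sym2.lift ⟨fun x y => decide (Even (lev h (wt x) (wt y) + lev h (wt (flip x z)) (wt (flip y z)))),
    fun _ _ => congrArg (fun k => decide (Even k))
      (congrArg₂ (· + ·) (lev_comm _ _ _) (lev_comm _ _ _))⟩

lemma chi0_mk {N : ℕ} (h : ℕ) (z : Fin N) (x y : V N) :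
    chi0 h z s(x, y) = decide (Even (lev h (wt x) (wt y)
      + lev h (wt (flip x z)) (wt (flip y z)))) := rfl

/-- The level of an edge is one of the two levels next to the weight of its endpoint. -/
lemma lev_bd (h a b : ℕ) (hab : a = b ∨ a + 1 = b ∨ b + 1 = a) :
    2 * lev h a b ≤ a + h ∧ a + h ≤ 2 * lev h a b + 2 := by
  unfold lev
  rcases hab with h1 | h1 | h1
  · subst h1; rw [min_self]; omega
  · rw [min_eq_left (by omega)]; omega
  · rw [min_eq_right (by omega)]; omega

lemma wt_near {N : ℕ} (x y : V N) (h : x = y ∨ (Q N).Adj x y) :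
    wt x = wt y ∨ wt x + 1 = wt y ∨ wt y + 1 = wt x := by
  rcases h with rfl | h
  · left; rfl
  · obtain ⟨d, rfl⟩ := adj_iff x y h
    rcases wt_flip x d with h | h <;> omega

lemma wt_near_flip {N : ℕ} (z : Fin N) (x y : V N) (h : x = y ∨ (Q N).Adj x y) :
    wt (flip x z) = wt (flip y z) ∨ wt (flip x z) + 1 = wt (flip y z)
      ∨ wt (flip y z) + 1 = wt (flip x z) := by
  refine wt_near _ _ ?_
  rcases h with rfl | h
  · left; rfl
  · right; exact adj_flip_flip _ _ _ h

section walls

variable {n N : ℕ} (h : ℕ) (z : Fin N) (π : V n → V N)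

/-- The colouring of `Q_n` pulled back along `π`. -/
def chi : Sym2 (V n) → Bool := fun e => chi0 h z (e.map π)

lemma chi_mk (x y : V n) : chi h z π s(x, y) = decide (Even (lev h (wt (π x)) (wt (π y))
      + lev h (wt (flip (π x) z)) (wt (flip (π y) z)))) := rfl

lemma walk_levels (hπ : ∀ u w, (Q n).Adj u w → π u = π w ∨ (Q N).Adj (π u) (π w))
    {u v : V n} (p : (Q n).Walk u v) (a : V n) (hau : (Q n).Adj a u) :
    ∃ l1 l2 : ℕ, (2 * l1 ≤ wt (π v) + h ∧ wt (π v) + h ≤ 2 * l1 + 2) ∧
      (2 * l2 ≤ wt (flip (π v) z) + h ∧ wt (flip (π v) z) + h ≤ 2 * l2 + 2) ∧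
      |(lev h (wt (π a)) (wt (π u)) : ℤ) - l1|
        + |(lev h (wt (flip (π a) z)) (wt (flip (π u) z)) : ℤ) - l2|
        ≤ (changes (chi h z π s(a, u) :: p.edges.map (chi h z π)) : ℤ) := by
  induction p generalizing a with
  | nil =>
    rename_i u
    have hn := hπ a u hau
    have e1 := lev_bd h (wt (π u)) (wt (π a)) (by
      rcases wt_near _ _ hn with h | h | h <;> omega)
    have e2 := lev_bd h (wt (flip (π u) z)) (wt (flip (π a) z)) (by
      rcases wt_near_flip z _ _ hn with h | h | h <;> omega)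
    have c1 : lev h (wt (π a)) (wt (π u)) = lev h (wt (π u)) (wt (π a)) := by
      unfold lev; rw [min_comm]
    have c2 : lev h (wt (flip (π a) z)) (wt (flip (π u) z))
        = lev h (wt (flip (π u) z)) (wt (flip (π a) z)) := by
      unfold lev; rw [min_comm]
    refine ⟨lev h (wt (π u)) (wt (π a)), lev h (wt (flip (π u) z)) (wt (flip (π a) z)), e1, e2, ?_⟩
    rw [c1, c2]
    simp [changes]
  | cons hub p ih =>
    rename_i u b v
    obtain ⟨l1, l2, h1, h2, h3⟩ := ih u hub
    refine ⟨l1, l2, h1, h2, ?_⟩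
    rw [SimpleGraph.Walk.edges_cons, List.map_cons, changes]
    have hn := hπ a u hau
    have hn' := hπ u b hub
    have e1 := lev_bd h (wt (π u)) (wt (π a)) (by
      rcases wt_near _ _ hn with h | h | h <;> omega)
    have e2 := lev_bd h (wt (flip (π u) z)) (wt (flip (π a) z)) (by
      rcases wt_near_flip z _ _ hn with h | h | h <;> omega)
    have f1 := lev_bd h (wt (π u)) (wt (π b)) (wt_near _ _ hn')
    have f2 := lev_bd h (wt (flip (π u) z)) (wt (flip (π b) z)) (wt_near_flip z _ _ hn')
    have c1 : lev h (wt (π a)) (wt (π u)) = lev h (wt (π u)) (wt (π a)) := by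
      unfold lev; rw [min_comm]
    have c2 : lev h (wt (flip (π a) z)) (wt (flip (π u) z))
        = lev h (wt (flip (π u) z)) (wt (flip (π a) z)) := by
      unfold lev; rw [min_comm]
    rw [← c1] at e1
    rw [← c2] at e2
    have hpar := wt_flip (π u) z
    rw [chi_mk, chi_mk]
    rw [chi_mk] at h3
    generalize lev h (wt (π a)) (wt (π u)) = x1 at *
    generalize lev h (wt (flip (π a) z)) (wt (flip (π u) z)) = x2 at *
    generalize lev h (wt (π u)) (wt (π b)) = y1 at *
    generalize lev h (wt (flip (π u) z)) (wt (flip (π b) z)) = y2 at *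
    generalize changes (decide (Even (y1 + y2)) :: List.map (chi h z π) p.edges) = C at *
    have key : |(x1 : ℤ) - y1| + |(x2 : ℤ) - y2| ≤
        (if decide (Even (x1 + x2)) = decide (Even (y1 + y2)) then 0 else 1 : ℕ) := by
      have hp1 : (x1 = y1 ∨ x1 + 1 = y1 ∨ y1 + 1 = x1) := by omega
      have hp2 : (x2 = y2 ∨ x2 + 1 = y2 ∨ y2 + 1 = x2) := by omega
      have hp3 : x1 = y1 ∨ x2 = y2 := by omega
      by_cases hc : x1 = y1 ∧ x2 = y2
      · obtain ⟨rfl, rfl⟩ := hc
        simp
      · have hne : ¬ (decide (Even (x1 + x2)) = decide (Even (y1 + y2))) := by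
          rw [decide_eq_decide]
          intro hiff
          rw [Nat.even_iff, Nat.even_iff] at hiff
          omega
        rw [if_neg hne]
        rcases hp3 with rfl | rfl
        · simp only [sub_self, abs_zero, zero_add]
          push_cast
          rw [abs_le]
          constructor <;> omega
        · simp only [sub_self, abs_zero, add_zero]
          push_cast
          rw [abs_le]
          constructor <;> omega
    have t1 := abs_sub_le (x1 : ℤ) y1 l1
    have t2 := abs_sub_le (x2 : ℤ) y2 l2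
    push_cast at key ⊢
    linarith

lemma m_lower (hπ : ∀ u w, (Q n).Adj u w → π u = π w ∨ (Q N).Adj (π u) (π w))
    (hanti : ∀ v, π (anti v) = anti (π v)) (hN : N = 2 * h) (v : V n) :
    |(wt (π v) : ℤ) - h| + |(wt (flip (π v) z) : ℤ) - h| - 1
      + (if wt (π v) = h then 1 else 0) + (if wt (flip (π v) z) = h then 1 else 0)
      ≤ (m (chi h z π) v : ℤ) := by
  have hN0 : 0 < N := lt_of_le_of_lt (Nat.zero_le _) z.isLt
  have hne : {k : ℕ | ∃ p : (Q n).Walk v (anti v), p.IsPath ∧
      changes (p.edges.map (chi h z π)) = k}.Nonempty := by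
    obtain ⟨p, hp, -, -⟩ := exists_walk (chi h z π) (univ : Finset (Fin n)).toList
      (Finset.nodup_toList _) v (anti v)
      (endp_univ _ (Finset.nodup_toList _) (Finset.toList_toFinset _) v).symm
    exact ⟨_, p, hp, rfl⟩
  obtain ⟨p, hp, hm⟩ := Nat.sInf_mem hne
  have hm' : changes (p.edges.map (chi h z π)) = m (chi h z π) v := hm
  rw [← hm']
  have hw1 := wt_anti (π v)
  have hw2 := wt_anti (flip (π v) z)
  have hfa : flip (anti (π v)) z = anti (flip (π v) z) := by
    funext i
    unfold anti
    simp only [flip_apply]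
    split_ifs <;> rfl
  have hpar := wt_flip (π v) z
  clear hm hm' hne hp
  have gen : ∀ (w : V n) (q : (Q n).Walk v w), w = anti v →
      |(wt (π v) : ℤ) - h| + |(wt (flip (π v) z) : ℤ) - h| - 1
      + (if wt (π v) = h then 1 else 0) + (if wt (flip (π v) z) = h then 1 else 0)
      ≤ (changes (q.edges.map (chi h z π)) : ℤ) := by
    intro w q hw
    cases q with
    | nil =>
      exfalso
      have h1 := congrArg π hw
      rw [hanti] at h1
      have h2 := congrFun h1 z
      unfold anti at h2
      simp at h2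
    | cons hvb q =>
      rename_i b
      obtain ⟨l1, l2, h1, h2, h3⟩ := walk_levels h z π hπ q v hvb
      rw [hw, hanti] at h1 h2
      rw [hfa] at h2
      have hn := hπ v b hvb
      have e1 := lev_bd h (wt (π v)) (wt (π b)) (wt_near _ _ hn)
      have e2 := lev_bd h (wt (flip (π v) z)) (wt (flip (π b) z)) (wt_near_flip z _ _ hn)
      rw [SimpleGraph.Walk.edges_cons, List.map_cons]
      refine le_trans ?_ h3
      generalize lev h (wt (π v)) (wt (π b)) = x1 at *
      generalize lev h (wt (flip (π v) z)) (wt (flip (π b) z)) = x2 at *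
      generalize wt (π v) = W1 at *
      generalize wt (flip (π v) z) = W2 at *
      generalize wt (anti (π v)) = W1' at *
      generalize wt (anti (flip (π v) z)) = W2' at *
      clear h3 hn hvb q p hw
      have a1 := le_abs_self ((x1 : ℤ) - l1)
      have a2 := neg_abs_le ((x1 : ℤ) - l1)
      have a3 := le_abs_self ((x2 : ℤ) - l2)
      have a4 := neg_abs_le ((x2 : ℤ) - l2)
      generalize |(x1 : ℤ) - l1| = A1 at *
      generalize |(x2 : ℤ) - l2| = A2 at *
      rcases le_total W1 h with g1 | g1 <;> rcases le_total W2 h with g2 | g2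
      · rw [abs_of_nonpos (by omega), abs_of_nonpos (by omega)]
        split_ifs <;> omega
      · rw [abs_of_nonpos (by omega), abs_of_nonneg (by omega)]
        split_ifs <;> omega
      · rw [abs_of_nonneg (by omega), abs_of_nonpos (by omega)]
        split_ifs <;> omega
      · rw [abs_of_nonneg (by omega), abs_of_nonneg (by omega)]
        split_ifs <;> omega
  exact gen _ p rfl

end walls

/-! ### Summing the weights -/

/-- The sum of `|n - 2 wt v|` over all vertices. -/
def aSum (n : ℕ) : ℤ := ∑ v : V n, |(n : ℤ) - 2 * wt v|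

/-- The number of vertices of weight `k`. -/
def cnt (n k : ℕ) : ℕ := #{v : V n | wt v = k}

lemma wt_cons {n : ℕ} (b : Bool) (v : V n) :
    wt (Fin.cons b v : V (n + 1)) = (if b then 1 else 0) + wt v := by
  unfold wt
  rw [Finset.card_filter, Finset.card_filter, Fin.sum_univ_succ]
  simp only [Fin.cons_zero, Fin.cons_succ]

lemma sum_cons {n : ℕ} {R : Type*} [AddCommMonoid R] (f : V (n + 1) → R) :
    ∑ v : V (n + 1), f v = ∑ v : V n, (f (Fin.cons true v) + f (Fin.cons false v)) := by
  rw [← (Fin.consEquiv (fun _ => Bool)).sum_comp]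
  rw [Fintype.sum_prod_type_right]
  refine Finset.sum_congr rfl fun v _ => ?_
  simp [Fin.consEquiv]

lemma cnt_eq (n k : ℕ) : cnt n k = n.choose k := by
  induction n generalizing k with
  | zero =>
    unfold cnt wt
    cases k with
    | zero => simp
    | succ k => simp
  | succ n ih =>
    have h1 : cnt (n + 1) k = ∑ v : V (n + 1), (if wt v = k then 1 else 0) := by
      unfold cnt
      rw [Finset.card_filter]
    rw [h1, sum_cons, Finset.sum_add_distrib]
    simp only [wt_cons]
    cases k with
    | zero =>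
      have h2 : ∑ v : V n, (if 1 + wt v = 0 then 1 else 0) = 0 := by
        refine Finset.sum_eq_zero fun v _ => if_neg (by omega)
      have h3 : ∑ v : V n, (if 0 + wt v = 0 then 1 else 0) = cnt n 0 := by
        unfold cnt
        rw [Finset.card_filter]
        simp
      simp only [if_true]
      rw [h2]
      simp only [Bool.false_eq_true, if_false]
      rw [h3, ih 0]
      simp
    | succ k =>
      have h2 : ∑ v : V n, (if 1 + wt v = k + 1 then 1 else 0) = cnt n k := by
        unfold cnt
        rw [Finset.card_filter]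
        refine Finset.sum_congr rfl fun v _ => ?_
        congr 1
        exact propext ⟨fun h => by omega, fun h => by omega⟩
      have h3 : ∑ v : V n, (if 0 + wt v = k + 1 then 1 else 0) = cnt n (k + 1) := by
        unfold cnt
        rw [Finset.card_filter]
        simp
      simp only [if_true]
      rw [h2]
      simp only [Bool.false_eq_true, if_false]
      rw [h3, ih k, ih (k + 1), Nat.choose_succ_succ]

lemma aSum_succ (n : ℕ) : aSum (n + 1) = 2 * aSum n + 2 * ∑ v : V n, (if 2 * wt v = n then 1 else 0) := by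
  unfold aSum
  rw [sum_cons, Finset.mul_sum, Finset.mul_sum, ← Finset.sum_add_distrib]
  refine Finset.sum_congr rfl fun v _ => ?_
  rw [wt_cons, wt_cons]
  simp only [if_true, Bool.false_eq_true, if_false]
  push_cast
  rcases lt_trichotomy (2 * wt v) n with h | h | h
  · rw [if_neg (by omega), abs_of_nonneg (by omega), abs_of_nonneg (by omega),
      abs_of_nonneg (by omega)]
    ring
  · rw [if_pos h]
    have h' : (n : ℤ) = 2 * wt v := by omega
    rw [h']
    norm_num
    ring_nf
    norm_num
  · rw [if_neg (by omega), abs_of_nonpos (by omega), abs_of_nonpos (by omega),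
      abs_of_nonpos (by omega)]
    ring

lemma sum_ite_half (n h : ℕ) : ∑ v : V n, (if wt v = h then (1 : ℤ) else 0) = (n.choose h : ℤ) := by
  rw [← cnt_eq n h]
  unfold cnt
  rw [Finset.card_filter]
  push_cast
  rfl

lemma aSum_even (h : ℕ) : aSum (2 * h) = 2 * h * (Nat.centralBinom h : ℤ) := by
  induction h with
  | zero => simp [aSum, wt]
  | succ h ih =>
    have e1 : aSum (2 * h + 1) = 2 * aSum (2 * h) + 2 * (Nat.centralBinom h : ℤ) := by
      rw [aSum_succ]
      congr 2
      rw [Nat.centralBinom_eq_two_mul_choose, ← sum_ite_half (2 * h) h]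
      refine Finset.sum_congr rfl fun v _ => ?_
      congr 1
      exact propext ⟨fun h => by omega, fun h => by omega⟩
    have e2 : aSum (2 * h + 1 + 1) = 2 * aSum (2 * h + 1) := by
      rw [aSum_succ]
      have : ∑ v : V (2 * h + 1), (if 2 * wt v = 2 * h + 1 then (1 : ℤ) else 0) = 0 :=
        Finset.sum_eq_zero fun v _ => if_neg (by omega)
      rw [this]; ring
    have e3 := Nat.succ_mul_centralBinom_succ h
    have e3' : ((h : ℤ) + 1) * (Nat.centralBinom (h + 1) : ℤ)
        = 2 * (2 * h + 1) * (Nat.centralBinom h : ℤ) := by exact_mod_cast e3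
    have e4 : 2 * (h + 1) = 2 * h + 1 + 1 := by ring
    rw [e4, e2, e1, ih]
    push_cast
    linarith

lemma sum_flip' {n : ℕ} {R : Type*} [AddCommMonoid R] (d : Fin n) (f : V n → R) :
    ∑ w : V n, f (flip w d) = ∑ w : V n, f w :=
  Finset.sum_bij' (fun w _ => flip w d) (fun w _ => flip w d) (by simp) (by simp)
    (by simp [flip_flip]) (by simp [flip_flip]) (by simp)

/-- The sum of the lower bounds over `Q_{2h}`. -/
lemma sum_bound (h : ℕ) (z : Fin (2 * h)) :
    ∑ v : V (2 * h), (|(wt v : ℤ) - h| + |(wt (flip v z) : ℤ) - h| - 1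
      + (if wt v = h then 1 else 0) + (if wt (flip v z) = h then 1 else 0))
      = (2 * h + 2) * (Nat.centralBinom h : ℤ) - 4 ^ h := by
  have h1 : ∑ v : V (2 * h), |(wt v : ℤ) - h| = h * (Nat.centralBinom h : ℤ) := by
    have := aSum_even h
    unfold aSum at this
    have h2 : ∑ v : V (2 * h), |((2 * h : ℕ) : ℤ) - 2 * wt v|
        = 2 * ∑ v : V (2 * h), |(wt v : ℤ) - h| := by
      rw [Finset.mul_sum]
      refine Finset.sum_congr rfl fun v _ => ?_
      have : ((2 * h : ℕ) : ℤ) - 2 * wt v = -(2 * ((wt v : ℤ) - h)) := by push_cast; ring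
      rw [this, abs_neg, abs_mul]
      norm_num
    rw [h2] at this
    linarith
  rw [Finset.sum_add_distrib, Finset.sum_add_distrib, Finset.sum_sub_distrib,
    Finset.sum_add_distrib, sum_flip' z (fun v => |(wt v : ℤ) - h|),
    sum_flip' z (fun v => if wt v = h then (1 : ℤ) else 0), sum_ite_half, h1,
    ← Nat.centralBinom_eq_two_mul_choose]
  simp only [Finset.sum_const, Finset.card_univ, Fintype.card_pi, Fintype.card_bool,
    Finset.prod_const, Fintype.card_fin, nsmul_eq_mul]
  push_cast
  rw [pow_mul]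
  norm_num
  ring

lemma A_even (h : ℕ) (hh : 1 ≤ h) :
    ∃ χ : Sym2 (V (2 * h)) → Bool,
      (2 * h + 2) * (Nat.centralBinom h : ℝ) / 4 ^ h - 1 ≤ A χ := by
  have z : Fin (2 * h) := ⟨0, by omega⟩
  refine ⟨chi h z id, ?_⟩
  have hb := fun v => m_lower (n := 2 * h) (N := 2 * h) h z id (fun u w huw => Or.inr huw)
    (fun v => rfl) rfl v
  have hs := Finset.sum_le_sum (s := (univ : Finset (V (2 * h)))) (fun v _ => hb v)
  simp only [id] at hs
  rw [sum_bound h z] at hs
  have hs' : (2 * h + 2) * (Nat.centralBinom h : ℝ) - 4 ^ h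
      ≤ ∑ v : V (2 * h), (m (chi h z id) v : ℝ) := by exact_mod_cast hs
  unfold A
  rw [pow_mul]
  have h4 : (0 : ℝ) < 4 ^ h := by positivity
  have h5 : ((2 : ℝ) ^ 2) ^ h = 4 ^ h := by norm_num
  rw [h5, div_sub_one h4.ne']
  exact div_le_div_of_nonneg_right hs' h4.le

lemma A_odd (h : ℕ) (hh : 1 ≤ h) :
    ∃ χ : Sym2 (V (2 * h + 1)) → Bool,
      (2 * h + 2) * (Nat.centralBinom h : ℝ) / 4 ^ h - 1 ≤ A χ := by
  have z : Fin (2 * h) := ⟨0, by omega⟩
  refine ⟨chi h z (fun v i => v i.succ), ?_⟩
  have hπ : ∀ u w : V (2 * h + 1), (Q (2 * h + 1)).Adj u w →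
      (fun i : Fin (2 * h) => u i.succ) = (fun i => w i.succ) ∨
        (Q (2 * h)).Adj (fun i => u i.succ) (fun i => w i.succ) := by
    intro u w huw
    obtain ⟨d, rfl⟩ := adj_iff u w huw
    refine Fin.cases ?_ (fun j => ?_) d
    · left
      funext i
      rw [flip_apply, if_neg (Fin.succ_ne_zero i)]
    · right
      have : (fun i : Fin (2 * h) => flip u j.succ i.succ) = flip (fun i => u i.succ) j := by
        funext i
        rw [flip_apply, flip_apply]
        simp only [Fin.succ_inj]
      rw [this]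
      exact adj_flip _ _
  have hb := fun v => m_lower (n := 2 * h + 1) (N := 2 * h) h z (fun v i => v i.succ) hπ
    (fun v => rfl) rfl v
  have hs := Finset.sum_le_sum (s := (univ : Finset (V (2 * h + 1)))) (fun v _ => hb v)
  rw [sum_cons] at hs
  simp only [Fin.cons_succ] at hs
  rw [Finset.sum_add_distrib, sum_bound h z] at hs
  have hs' : 2 * ((2 * h + 2) * (Nat.centralBinom h : ℝ) - 4 ^ h)
      ≤ ∑ v : V (2 * h + 1), (m (chi h z (fun v i => v i.succ)) v : ℝ) := by
    have : 2 * ((2 * h + 2) * (Nat.centralBinom h : ℤ) - 4 ^ h)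
      ≤ ∑ v : V (2 * h + 1), (m (chi h z (fun v i => v i.succ)) v : ℤ) := by linarith
    exact_mod_cast this
  unfold A
  have h4 : (0 : ℝ) < 4 ^ h := by positivity
  have h5 : (2 : ℝ) ^ (2 * h + 1) = 2 * 4 ^ h := by
    rw [pow_succ, pow_mul]; norm_num; ring
  rw [h5, le_div_iff₀ (by positivity)]
  refine le_trans (le_of_eq ?_) hs'
  field_simp

lemma bdd (n : ℕ) : BddAbove (Set.range (fun χ : Sym2 (V n) → Bool => A χ)) :=
  (Set.finite_range _).bddAbove

lemma M_lower (n : ℕ) (hn : 2 ≤ n) :
    (2 * (n / 2 : ℕ) + 2) * (Nat.centralBinom (n / 2) : ℝ) / 4 ^ (n / 2) - 1 ≤ M n := by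
  rcases Nat.even_or_odd' n with ⟨h, rfl | rfl⟩
  · obtain ⟨χ, hχ⟩ := A_even h (by omega)
    have e : 2 * h / 2 = h := by omega
    rw [e]
    exact hχ.trans (le_ciSup (bdd _) χ)
  · obtain ⟨χ, hχ⟩ := A_odd h (by omega)
    have e : (2 * h + 1) / 2 = h := by omega
    rw [e]
    exact hχ.trans (le_ciSup (bdd _) χ)

lemma M_upper (n : ℕ) (hn : 2 ≤ n) : M n ≤ Real.pi / 2 * (n / √((n : ℝ) - 1)) :=
  ciSup_le fun χ => A_le χ hn

/-- Wallis' inequality for the central binomial coefficient. -/
lemma central_ge (h : ℕ) : √(2 * (2 * h + 1) / Real.pi) ≤ (2 * h + 1) * (Nat.centralBinom h : ℝ) / 4 ^ h := by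
  have hW := Real.Wallis.W_le h
  rw [Real.Wallis.W_eq_factorial_ratio] at hW
  have hpi := Real.pi_pos
  have hf : ((2 * h).factorial : ℝ) = (Nat.centralBinom h : ℝ) * (h.factorial : ℝ) ^ 2 := by
    have := Nat.centralBinom_eq_two_mul_choose h
    have h2 := Nat.choose_mul_factorial_mul_factorial (show h ≤ 2 * h by omega)
    have e : 2 * h - h = h := by omega
    rw [e, ← this] at h2
    rw [← h2]
    push_cast
    ring
  rw [hf] at hW
  have hfac : (0 : ℝ) < (h.factorial : ℝ) := by exact_mod_cast Nat.factorial_pos h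
  have hcb : (0 : ℝ) < (Nat.centralBinom h : ℝ) := by exact_mod_cast Nat.centralBinom_pos h
  have h4 : (0 : ℝ) < 4 ^ h := by positivity
  have h16 : (2 : ℝ) ^ (4 * h) = (4 ^ h) ^ 2 := by
    rw [← pow_mul, pow_mul]
    norm_num
    rw [mul_comm, pow_mul]; norm_num
  rw [h16] at hW
  have hW' : (4 ^ h : ℝ) ^ 2 ≤ Real.pi / 2 * ((Nat.centralBinom h : ℝ) ^ 2 * (2 * h + 1)) := by
    have e : (4 ^ h : ℝ) ^ 2 * (h.factorial : ℝ) ^ 4
        / (((Nat.centralBinom h : ℝ) * (h.factorial : ℝ) ^ 2) ^ 2 * (2 * h + 1))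
        = (4 ^ h : ℝ) ^ 2 / ((Nat.centralBinom h : ℝ) ^ 2 * (2 * h + 1)) := by
      field_simp
    rw [e, div_le_iff₀ (by positivity)] at hW
    exact hW
  refine Real.sqrt_le_iff.mpr ⟨by positivity, ?_⟩
  rw [div_pow, div_le_div_iff₀ hpi (by positivity)]
  have hh : (0 : ℝ) < 2 * h + 1 := by positivity
  nlinarith [mul_le_mul_of_nonneg_left hW' hh.le]

lemma M_sqrt (n : ℕ) (hn : 2 ≤ n) : √(2 * n / Real.pi) - 1 ≤ M n := by
  refine le_trans ?_ (M_lower n hn)
  have h1 := central_ge (n / 2)
  have hpi := Real.pi_pos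
  have hle : (n : ℝ) ≤ 2 * ((n / 2 : ℕ) : ℝ) + 1 := by
    have : n ≤ 2 * (n / 2) + 1 := by omega
    exact_mod_cast this
  have h2 : √(2 * n / Real.pi) ≤ √(2 * (2 * ((n / 2 : ℕ) : ℝ) + 1) / Real.pi) :=
    Real.sqrt_le_sqrt (div_le_div_of_nonneg_right (by linarith) hpi.le)
  have h3 : (2 * ((n / 2 : ℕ) : ℝ) + 1) * (Nat.centralBinom (n / 2) : ℝ) / 4 ^ (n / 2)
      ≤ (2 * ((n / 2 : ℕ) : ℝ) + 2) * (Nat.centralBinom (n / 2) : ℝ) / 4 ^ (n / 2) := by
    refine div_le_div_of_nonneg_right (mul_le_mul_of_nonneg_right (by linarith) ?_) (by positivity)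
    positivity
  linarith

end Pool.Agent.Hhelper43.Cube
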